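import Pool.Agent.N818.IL.Stm

/-!
IL/ILO (helper11): pigeonhole lower bound
-/

set_option autoImplicit false

open scoped Classical

namespace Pool.Agent.N11.IL
open Finset Pool.Agent.N818.IL

/-- product over the symmetric difference -/
theorem prod_sd {R : Type} [CommRing R] (f : ℕ → R) (A B : Finset ℕ) :
    (∏ q ∈ symmDiff A B, f q) * (∏ q ∈ A ∩ B, f q) ^ 2 = (∏ q ∈ A, f q) * ∏ q ∈ B, f q := by
  have h1 : ∏ q ∈ symmDiff A B, f q = (∏ q ∈ A \ B, f q) * ∏ q ∈ B \ A, f q := by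
    have h : symmDiff A B = (A \ B) ∪ (B \ A) := by
      ext x
      simp only [Finset.mem_symmDiff, Finset.mem_union, Finset.mem_sdiff]
    rw [h]
    refine Finset.prod_union (Finset.disjoint_left.2 fun x hx hy => ?_)
    rw [Finset.mem_sdiff] at hx hy
    exact hx.2 hy.1
  have h2 : ∏ q ∈ A, f q = (∏ q ∈ A ∩ B, f q) * ∏ q ∈ A \ B, f q :=
    (Finset.prod_inter_mul_prod_sdiff A B f).symm
  have h3 : ∏ q ∈ B, f q = (∏ q ∈ A ∩ B, f q) * ∏ q ∈ B \ A, f q := by
    rw [Finset.inter_comm]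
    exact (Finset.prod_inter_mul_prod_sdiff B A f).symm
  rw [h1, h2, h3]
  ring

/-- the number whose quadratic symbol is the colour -/
def aP (P : Finset ℕ) (p : ℕ) (J : Finset ℕ) : ℤ :=
  if p ∈ J then -(∏ q ∈ P.erase p, (q : ℤ)) * (1 * ∏ q ∈ J.erase p, (q : ℤ))
  else 1 * ∏ q ∈ J, (q : ℤ)

theorem ci_iff (P R J : Finset ℕ) :
    CI 1 P R J ↔ ∀ p ∈ R, IsSquare ((aP P p J : ℤ) : ZMod p) := by
  unfold CI aP
  refine forall₂_congr fun p _ => ?_
  by_cases h : p ∈ J
  · rw [if_pos h]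
    exact ⟨fun h1 => h1.2 h, fun h1 => ⟨fun h2 => absurd h h2, fun _ => h1⟩⟩
  · rw [if_neg h]
    exact ⟨fun h1 => h1.1 h, fun h1 => ⟨fun _ => h1, fun h2 => absurd h2 h⟩⟩

/-- a product of primes different from `p` is not zero modulo `p` -/
theorem prod_ne {p : ℕ} (hp : p.Prime) {A : Finset ℕ} (hA : ∀ q ∈ A, q.Prime ∧ q ≠ p) :
    ((∏ q ∈ A, (q : ℤ) : ℤ) : ZMod p) ≠ 0 := by
  have : Fact p.Prime := ⟨hp⟩
  push_cast
  rw [Finset.prod_ne_zero_iff]
  intro q hq h
  rw [ZMod.natCast_eq_zero_iff] at h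
  exact (hA q hq).2 ((Nat.prime_dvd_prime_iff_eq hp (hA q hq).1).1 h).symm

theorem aP_ne {P J : Finset ℕ} (hP : ∀ p ∈ P, p.Prime ∧ p ≠ 2) (hJ : J ⊆ P) {p : ℕ}
    (hp : p ∈ P) : ((aP P p J : ℤ) : ZMod p) ≠ 0 := by
  have : Fact p.Prime := ⟨(hP p hp).1⟩
  unfold aP
  split_ifs with h
  · rw [one_mul, Int.cast_mul, Int.cast_neg]
    refine mul_ne_zero (neg_ne_zero.2 (prod_ne (hP p hp).1 fun q hq => ?_))
      (prod_ne (hP p hp).1 fun q hq => ?_)
    · exact ⟨(hP q (Finset.mem_of_mem_erase hq)).1, Finset.ne_of_mem_erase hq⟩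
    · exact ⟨(hP q (hJ (Finset.mem_of_mem_erase hq))).1, Finset.ne_of_mem_erase hq⟩
  · rw [one_mul]
    refine prod_ne (hP p hp).1 fun q hq => ⟨(hP q (hJ hq)).1, ?_⟩
    rintro rfl
    exact h hq

theorem aP_mul {P J J0 : Finset ℕ} (hP : ∀ p ∈ P, p.Prime ∧ p ≠ 2) (hJ : J ⊆ P) (hJ0 : J0 ⊆ P)
    {p : ℕ} (hp : p ∈ P) : ∃ c : ℤ, (c : ZMod p) ≠ 0 ∧
      aP P p J * aP P p J0 = aP P p (symmDiff J J0) * c ^ 2 := by
  have : Fact p.Prime := ⟨(hP p hp).1⟩
  by_cases h : p ∈ J
  · by_cases h0 : p ∈ J0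
    · have hK : p ∉ symmDiff J J0 := by
        rw [Finset.mem_symmDiff]
        tauto
      have e : symmDiff J J0 = symmDiff (J.erase p) (J0.erase p) := by
        ext x
        simp only [Finset.mem_symmDiff, Finset.mem_erase]
        by_cases hx : x = p
        · subst hx
          tauto
        · tauto
      refine ⟨(∏ q ∈ P.erase p, (q : ℤ)) * ∏ q ∈ J.erase p ∩ J0.erase p, (q : ℤ), ?_, ?_⟩
      · rw [Int.cast_mul]
        refine mul_ne_zero (prod_ne (hP p hp).1 fun q hq => ?_)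
          (prod_ne (hP p hp).1 fun q hq => ?_)
        · exact ⟨(hP q (Finset.mem_of_mem_erase hq)).1, Finset.ne_of_mem_erase hq⟩
        · have hq' := (Finset.mem_inter.1 hq).1
          exact ⟨(hP q (hJ (Finset.mem_of_mem_erase hq'))).1, Finset.ne_of_mem_erase hq'⟩
      · unfold aP
        rw [if_pos h, if_pos h0, if_neg hK, e]
        have h1 := prod_sd (fun q => (q : ℤ)) (J.erase p) (J0.erase p)
        linear_combination (-(∏ q ∈ P.erase p, (q : ℤ)) ^ 2) * h1
    · have hK : p ∈ symmDiff J J0 := by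
        rw [Finset.mem_symmDiff]
        tauto
      have e : (symmDiff J J0).erase p = symmDiff (J.erase p) J0 := by
        ext x
        simp only [Finset.mem_symmDiff, Finset.mem_erase]
        by_cases hx : x = p
        · subst hx
          tauto
        · tauto
      refine ⟨∏ q ∈ J.erase p ∩ J0, (q : ℤ), ?_, ?_⟩
      · refine prod_ne (hP p hp).1 fun q hq => ?_
        have hq' := (Finset.mem_inter.1 hq).1
        exact ⟨(hP q (hJ (Finset.mem_of_mem_erase hq'))).1, Finset.ne_of_mem_erase hq'⟩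
      · unfold aP
        rw [if_pos h, if_neg h0, if_pos hK, e]
        have h1 := prod_sd (fun q => (q : ℤ)) (J.erase p) J0
        linear_combination ((∏ q ∈ P.erase p, (q : ℤ))) * h1
  · by_cases h0 : p ∈ J0
    · have hK : p ∈ symmDiff J J0 := by
        rw [Finset.mem_symmDiff]
        tauto
      have e : (symmDiff J J0).erase p = symmDiff J (J0.erase p) := by
        ext x
        simp only [Finset.mem_symmDiff, Finset.mem_erase]
        by_cases hx : x = p
        · subst hx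
          tauto
        · tauto
      refine ⟨∏ q ∈ J ∩ J0.erase p, (q : ℤ), ?_, ?_⟩
      · refine prod_ne (hP p hp).1 fun q hq => ?_
        have hq' := (Finset.mem_inter.1 hq).2
        exact ⟨(hP q (hJ0 (Finset.mem_of_mem_erase hq'))).1, Finset.ne_of_mem_erase hq'⟩
      · unfold aP
        rw [if_neg h, if_pos h0, if_pos hK, e]
        have h1 := prod_sd (fun q => (q : ℤ)) J (J0.erase p)
        linear_combination ((∏ q ∈ P.erase p, (q : ℤ))) * h1
    · have hK : p ∉ symmDiff J J0 := by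
        rw [Finset.mem_symmDiff]
        tauto
      refine ⟨∏ q ∈ J ∩ J0, (q : ℤ), ?_, ?_⟩
      · refine prod_ne (hP p hp).1 fun q hq => ?_
        have hq' := (Finset.mem_inter.1 hq).1
        refine ⟨(hP q (hJ hq')).1, ?_⟩
        rintro rfl
        exact h hq'
      · unfold aP
        rw [if_neg h, if_neg h0, if_neg hK]
        have h1 := prod_sd (fun q => (q : ℤ)) J J0
        linear_combination (-1 : ℤ) * h1

theorem sq_mul_sq {p : ℕ} (hp : p.Prime) {a b : ZMod p} (ha : a ≠ 0) (hb : b ≠ 0)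
    (h : IsSquare a ↔ IsSquare b) : IsSquare (a * b) := by
  have : Fact p.Prime := ⟨hp⟩
  by_cases h1 : IsSquare a
  · exact h1.mul (h.1 h1)
  · have h2 : ¬ IsSquare b := fun h2 => h1 (h.2 h2)
    have h3 := quadraticChar_dichotomy ha
    have h4 := quadraticChar_dichotomy hb
    rw [quadraticChar_one_iff_isSquare ha] at h3
    rw [quadraticChar_one_iff_isSquare hb] at h4
    have h5 := h3.resolve_left h1
    have h6 := h4.resolve_left h2
    rw [← quadraticChar_one_iff_isSquare (mul_ne_zero ha hb), map_mul, h5, h6]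
    norm_num

theorem sq_of_mul_sq {K : Type} [Field K] {a c : K} (hc : c ≠ 0) (h : IsSquare (a * c ^ 2)) :
    IsSquare a := by
  obtain ⟨r, hr⟩ := h
  refine ⟨r / c, ?_⟩
  field_simp
  linear_combination hr

theorem ci_symm {P Q R J J0 : Finset ℕ} (hP : ∀ p ∈ P, p.Prime ∧ p ≠ 2) (hQ : Q ⊆ P)
    (hR : R ⊆ Q) (hJ : J ⊆ Q) (hJ0 : J0 ⊆ Q)
    (h : ∀ p ∈ R, (IsSquare ((aP P p J : ℤ) : ZMod p) ↔ IsSquare ((aP P p J0 : ℤ) : ZMod p))) :
    CI 1 P R (symmDiff J J0) := by
  rw [ci_iff]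
  intro p hp
  have hpP := hQ (hR hp)
  have : Fact p.Prime := ⟨(hP p hpP).1⟩
  obtain ⟨c, hc, h1⟩ := aP_mul hP (hJ.trans hQ) (hJ0.trans hQ) hpP
  refine sq_of_mul_sq hc ?_
  have h2 := sq_mul_sq (hP p hpP).1 (aP_ne hP (hJ.trans hQ) hpP)
    (aP_ne hP (hJ0.trans hQ) hpP) (h p hp)
  rw [← Int.cast_mul, h1] at h2
  rwa [Int.cast_mul, Int.cast_pow] at h2

theorem sqm {P Q J J0 : Finset ℕ} {m : ℕ} (hP : ∀ p ∈ P, p.Prime ∧ p ≠ 2) (hQ : Q ⊆ P)
    (hm : ∀ q ∈ Q, ¬ q ∣ m) (hJ : J ⊆ Q)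
    (h : ((∏ q ∈ J, q : ℕ) : ZMod m) = ((∏ q ∈ J0, q : ℕ) : ZMod m)) :
    IsSquare ((∏ q ∈ symmDiff J J0, q : ℕ) : ZMod m) := by
  have hu : IsUnit ((∏ q ∈ J ∩ J0, q : ℕ) : ZMod m) := by
    rw [ZMod.isUnit_iff_coprime]
    refine Nat.Coprime.prod_left fun q hq => ?_
    have hq' := hJ (Finset.mem_inter.1 hq).1
    exact ((hP q (hQ hq')).1.coprime_iff_not_dvd).2 (hm q hq')
  obtain ⟨u, hu⟩ := hu
  have h1 := prod_sd (fun q => (q : ZMod m)) J J0
  push_cast at h hu ⊢
  rw [h, ← hu] at h1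
  refine ⟨(∏ q ∈ J0, (q : ZMod m)) * (u⁻¹ : (ZMod m)ˣ), ?_⟩
  have h2 : (u : ZMod m) * (u⁻¹ : (ZMod m)ˣ) = 1 := by
    rw [← Units.val_mul, mul_inv_cancel, Units.val_one]
  calc (∏ q ∈ symmDiff J J0, (q : ZMod m))
      = ((∏ q ∈ symmDiff J J0, (q : ZMod m)) * (u : ZMod m) ^ 2) *
        ((u⁻¹ : (ZMod m)ˣ) : ZMod m) ^ 2 := by
        linear_combination (-(∏ q ∈ symmDiff J J0, (q : ZMod m)) *
          ((u : ZMod m) * (u⁻¹ : (ZMod m)ˣ) + 1)) * h2
    _ = _ := by
        rw [h1]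
        ring

theorem t_ILO : Pool.Agent.N818.IL.S_ILO := by
  intro P Q R m hP hm hQ hR hqm
  have : NeZero m := ⟨hm.ne'⟩
  obtain ⟨F, hF⟩ : ∃ F, F = Q.powerset.filter fun J => CI 1 P R J ∧
    IsSquare ((∏ q ∈ J, q : ℕ) : ZMod m) := ⟨_, rfl⟩
  suffices key : 2 ^ Q.card ≤ m * 2 ^ R.card * F.card by
    rw [hF] at key
    convert key
  let f : Finset ℕ → ZMod m × Finset ℕ := fun J =>
    (((∏ q ∈ J, q : ℕ) : ZMod m), R.filter fun p => IsSquare ((aP P p J : ℤ) : ZMod p))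
  have h1 := Finset.card_le_mul_card_image_of_maps_to (s := Q.powerset)
    (t := (Finset.univ : Finset (ZMod m)) ×ˢ R.powerset) (f := f) (fun J _ => by
      refine Finset.mem_product.2 ⟨Finset.mem_univ _, Finset.mem_powerset.2 ?_⟩
      exact Finset.filter_subset _ _) F.card (by
      intro b _
      rcases Finset.eq_empty_or_nonempty (Q.powerset.filter fun J => f J = b) with he | ⟨J0, hJ0⟩
      · rw [he, Finset.card_empty]
        exact Nat.zero_le _
      · rw [Finset.mem_filter, Finset.mem_powerset] at hJ0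
        refine Finset.card_le_card_of_injOn (fun J => symmDiff J J0) ?_ ?_
        · intro J hJ
          rw [Finset.mem_coe, Finset.mem_filter, Finset.mem_powerset] at hJ
          have e : f J = f J0 := hJ.2.trans hJ0.2.symm
          have e1 : ((∏ q ∈ J, q : ℕ) : ZMod m) = ((∏ q ∈ J0, q : ℕ) : ZMod m) :=
            congrArg Prod.fst e
          have e2 : R.filter (fun p => IsSquare ((aP P p J : ℤ) : ZMod p)) =
              R.filter (fun p => IsSquare ((aP P p J0 : ℤ) : ZMod p)) := congrArg Prod.snd e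
          rw [hF, Finset.mem_coe, Finset.mem_filter, Finset.mem_powerset]
          refine ⟨?_, ci_symm hP hQ hR hJ.1 hJ0.1 fun p hp => ?_, sqm hP hQ hqm hJ.1 e1⟩
          · intro x hx
            rw [Finset.mem_symmDiff] at hx
            rcases hx with hx | hx
            · exact hJ.1 hx.1
            · exact hJ0.1 hx.1
          · have h3 : p ∈ R.filter (fun p => IsSquare ((aP P p J : ℤ) : ZMod p)) ↔
                p ∈ R.filter (fun p => IsSquare ((aP P p J0 : ℤ) : ZMod p)) := by rw [e2]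
            rw [Finset.mem_filter, Finset.mem_filter] at h3
            tauto
        · intro J _ J' _ h
          simp only at h
          exact symmDiff_left_injective J0 h)
  rw [Finset.card_powerset, Finset.card_product, Finset.card_powerset, Finset.card_univ,
    ZMod.card] at h1
  rw [mul_comm]
  exact h1

end Pool.Agent.N11.IL
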